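import Mathlib

namespace Pool.Agent.Results.MP_f34218_co.NoSmallTrade

open Matrix

/-- A complex Hadamard matrix of order `n`. -/
def IsHadamard {n : ℕ} (H : Matrix (Fin n) (Fin n) ℂ) : Prop :=
  (∀ i j, ‖H i j‖ = 1) ∧ H * Hᴴ = (n : ℂ) • (1 : Matrix (Fin n) (Fin n) ℂ)

/-- `T` is a trade in `H`: some complex Hadamard matrix `H' ≠ H` differs from `H` exactly on `T`. -/
def IsTrade {n : ℕ} (H : Matrix (Fin n) (Fin n) ℂ) (T : Finset (Fin n × Fin n)) : Prop :=
  ∃ H' : Matrix (Fin n) (Fin n) ℂ, IsHadamard H' ∧ H' ≠ H ∧ ∀ i j, (i, j) ∈ T ↔ H' i j ≠ H i j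

lemma comm {n : ℕ} (hn : 0 < n) (H : Matrix (Fin n) (Fin n) ℂ) (h : IsHadamard H) :
    Hᴴ * H = (n : ℂ) • (1 : Matrix (Fin n) (Fin n) ℂ) := by
  have hn' : (n : ℂ) ≠ 0 := by exact_mod_cast hn.ne'
  have h1 : H * ((n : ℂ)⁻¹ • Hᴴ) = 1 := by
    rw [Matrix.mul_smul, h.2, smul_smul, inv_mul_cancel₀ hn', one_smul]
  have h2 := mul_eq_one_comm.1 h1
  rw [Matrix.smul_mul] at h2
  rw [← h2, smul_smul, mul_inv_cancel₀ hn', one_smul]

/-- Every trade in a complex Hadamard matrix of order `n` has size at least `n`. -/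
theorem result (n : ℕ) (H : Matrix (Fin n) (Fin n) ℂ) (hH : IsHadamard H)
    (T : Finset (Fin n × Fin n)) (hT : IsTrade H T) : n ≤ T.card := by
  classical
  obtain ⟨H', hH', hne, hd⟩ := hT
  rcases Nat.eq_zero_or_pos n with rfl | hn
  · exact Nat.zero_le _
  set D := H' - H with hD
  set A : Finset (Fin n) := Finset.univ.filter fun i => ∃ k, D i k ≠ 0 with hA
  set C := D * Hᴴ with hC
  have hCH : C * H = (n : ℂ) • D := by
    rw [hC, Matrix.mul_assoc, comm hn H hH, Matrix.mul_smul, Matrix.mul_one]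
  have hC0 : ∀ i ∈ A, ∀ j, j ∉ A → C i j = 0 := by
    intro i hi j hj
    have hij : i ≠ j := fun e => hj (e ▸ hi)
    have hj' : ∀ k, H' j k = H j k := fun k => by
      by_contra hk
      exact hj (Finset.mem_filter.2 ⟨Finset.mem_univ _, k, by simpa [hD, sub_eq_zero] using hk⟩)
    have e1 := congrFun (congrFun hH.2 i) j
    have e2 := congrFun (congrFun hH'.2 i) j
    simp only [Matrix.mul_apply, Matrix.conjTranspose_apply, Matrix.smul_apply,
      Matrix.one_apply_ne hij, smul_zero, hj'] at e1 e2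
    simp only [hC, hD, Matrix.mul_apply, Matrix.conjTranspose_apply, Matrix.sub_apply, sub_mul,
      Finset.sum_sub_distrib, e1, e2, sub_zero]
  have row : ∀ i ∈ A, n ≤ A.card * (Finset.univ.filter fun k => D i k ≠ 0).card := by
    intro i hi
    set S := Finset.univ.filter fun k => D i k ≠ 0 with hS
    obtain ⟨k0, hk0⟩ := (Finset.mem_filter.1 hi).2
    obtain ⟨k, -, hk⟩ := Finset.exists_max_image Finset.univ (fun k => ‖D i k‖) ⟨k0, Finset.mem_univ _⟩
    have hM : 0 < ‖D i k‖ := lt_of_lt_of_le (norm_pos_iff.2 hk0) (hk k0 (Finset.mem_univ _))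
    have b1 : ∀ j, ‖C i j‖ ≤ S.card * ‖D i k‖ := fun j => by
      have : C i j = ∑ l ∈ S, D i l * star (H j l) := by
        rw [hC, Matrix.mul_apply, hS, Finset.sum_filter]
        refine Finset.sum_congr rfl fun l _ => ?_
        split_ifs with h
        · rfl
        · rw [not_not.1 h, zero_mul]
      rw [this]
      refine (norm_sum_le _ _).trans ?_
      rw [← nsmul_eq_mul]
      refine Finset.sum_le_card_nsmul _ _ _ fun l _ => ?_
      rw [norm_mul, norm_star, hH.1, mul_one]
      exact hk l (Finset.mem_univ _)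
    have b2 : (n : ℝ) * ‖D i k‖ ≤ A.card * (S.card * ‖D i k‖) := by
      have e := congrFun (congrFun hCH i) k
      rw [Matrix.mul_apply, Matrix.smul_apply, smul_eq_mul] at e
      have e' : ∑ j, C i j * H j k = ∑ j ∈ A, C i j * H j k := by
        refine (Finset.sum_subset (Finset.subset_univ _) fun j _ hj => ?_).symm
        rw [hC0 i hi j hj, zero_mul]
      have : (n : ℝ) * ‖D i k‖ = ‖∑ j ∈ A, C i j * H j k‖ := by
        rw [← e', e, norm_mul, Complex.norm_natCast]
      rw [this]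
      refine (norm_sum_le _ _).trans ?_
      rw [← nsmul_eq_mul]
      refine Finset.sum_le_card_nsmul _ _ _ fun j _ => ?_
      rw [norm_mul, hH.1, mul_one]
      exact b1 j
    rw [← mul_assoc] at b2
    exact_mod_cast le_of_mul_le_mul_right b2 hM
  have hAne : 0 < A.card := by
    rw [Finset.card_pos]
    by_contra h
    apply hne
    ext i k
    by_contra hk
    exact h ⟨i, Finset.mem_filter.2 ⟨Finset.mem_univ _, k, by simpa [hD, sub_eq_zero] using hk⟩⟩
  have hsum : ∑ i ∈ A, (Finset.univ.filter fun k => D i k ≠ 0).card ≤ T.card := by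
    rw [← Finset.card_sigma]
    refine Finset.card_le_card_of_injOn (fun x => (x.1, x.2)) ?_ ?_
    · rintro ⟨i, k⟩ hx
      have := (Finset.mem_filter.1 (Finset.mem_sigma.1 hx).2).2
      exact Finset.mem_coe.2 ((hd i k).2 (by simpa [hD, sub_eq_zero] using this))
    · rintro ⟨i, k⟩ _ ⟨j, l⟩ _ h
      simp only [Prod.mk.injEq] at h
      obtain ⟨rfl, rfl⟩ := h
      rfl
  have h1 := Finset.card_nsmul_le_sum A _ n row
  rw [← Finset.mul_sum, smul_eq_mul] at h1
  exact (Nat.le_of_mul_le_mul_left h1 hAne).trans hsum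

end Pool.Agent.Results.MP_f34218_co.NoSmallTrade
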